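import Pool.Agent.Lib.MP_0a5adf_nt.TP.Interfaces

set_option autoImplicit false

namespace Pool.Agent.Lib.MP_0a5adf_nt.H37

open Finset Pool.Agent.Lib.MP_0a5adf_nt.TP

theorem mem_cat {a : ℕ} {A B : Finset ℕ} {x : ℕ} :
    x ∈ cat a A B ↔ x ∈ A ∨ ∃ y ∈ B, a + y = x := by
  simp [cat]

theorem rk_cat_left {a : ℕ} {A B : Finset ℕ} {x : ℕ} (hB : ∀ y ∈ B, 1 ≤ y) (hx : x ≤ a) :
    rk (cat a A B) x = rk A x := by
  unfold rk
  congr 1
  ext y
  simp only [mem_filter, mem_cat]
  constructor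
  · rintro ⟨h | ⟨z, hz, rfl⟩, hy⟩
    · exact ⟨h, hy⟩
    · have := hB z hz
      omega
  · rintro ⟨h, hy⟩
    exact ⟨Or.inl h, hy⟩

theorem cat_disj {a : ℕ} {A B : Finset ℕ} (hA : A ⊆ Icc 1 a) (hB : ∀ y ∈ B, 1 ≤ y) :
    Disjoint A (B.map (addLeftEmbedding a)) := by
  rw [disjoint_left]
  intro x hx hx'
  simp only [mem_map, addLeftEmbedding_apply] at hx'
  obtain ⟨y, hy, rfl⟩ := hx'
  have h1 := mem_Icc.1 (hA hx)
  have h2 := hB y hy
  omega

theorem rk_cat_right {a : ℕ} {A B : Finset ℕ} {x : ℕ} (hA : A ⊆ Icc 1 a) (hB : ∀ y ∈ B, 1 ≤ y)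
    (hx : 1 ≤ x) : rk (cat a A B) (a + x) = A.card + rk B x := by
  unfold rk cat
  rw [filter_union, card_union_of_disjoint]
  · congr 1
    · congr 1
      rw [filter_eq_self]
      intro y hy
      have := mem_Icc.1 (hA hy)
      omega
    · rw [filter_map, card_map]
      congr 1
      ext y
      simp
  · exact disjoint_filter_filter (cat_disj hA hB)

theorem sum_cat {M : Type*} [AddCommMonoid M] {a : ℕ} {A B : Finset ℕ} (hA : A ⊆ Icc 1 a)
    (hB : ∀ y ∈ B, 1 ≤ y) (g : ℕ → M) :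
    ∑ x ∈ cat a A B, g x = ∑ x ∈ A, g x + ∑ x ∈ B, g (a + x) := by
  unfold cat
  rw [sum_union (cat_disj hA hB), sum_map]
  simp

theorem catSt : CatStatement := by
  intro a b A B hA hB
  have hB1 : ∀ y ∈ B, 1 ≤ y := fun y hy => (mem_Icc.1 (hB hy)).1
  refine ⟨?_, ?_, ?_, ?_, ?_, ?_⟩
  · intro x hx
    rw [mem_cat] at hx
    rw [mem_Icc]
    rcases hx with h | ⟨y, hy, rfl⟩
    · have := mem_Icc.1 (hA h)
      omega
    · have := mem_Icc.1 (hB hy)
      omega
  · unfold cat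
    rw [card_union_of_disjoint (cat_disj hA hB1), card_map]
  · intro q
    unfold xz
    rw [sum_cat hA hB1, mul_sum]
    congr 1
    · refine sum_congr rfl fun x hx => ?_
      rw [rk_cat_left hB1 (mem_Icc.1 (hA hx)).2]
    · refine sum_congr rfl fun x hx => ?_
      rw [rk_cat_right hA hB1 (hB1 x hx), pow_add, pow_add]
      ring
  · unfold xr
    rw [sum_cat hA hB1, mul_sum]
    congr 1
    · refine sum_congr rfl fun x hx => ?_
      rw [rk_cat_left hB1 (mem_Icc.1 (hA hx)).2]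
    · refine sum_congr rfl fun x hx => ?_
      rw [rk_cat_right hA hB1 (hB1 x hx), pow_add, pow_add]
      field_simp
  · intro x hx
    rw [mem_cat]
    constructor
    · rintro (h | ⟨y, hy, rfl⟩)
      · exact h
      · have := hB1 y hy
        omega
    · exact Or.inl
  · intro x hx
    rw [mem_cat]
    constructor
    · rintro (h | ⟨y, hy, h⟩)
      · have := mem_Icc.1 (hA h)
        omega
      · have : y = x := by omega
        exact this ▸ hy
    · intro h
      exact Or.inr ⟨x, h, rfl⟩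

end Pool.Agent.Lib.MP_0a5adf_nt.H37
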