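import Pool.Agent.Lib.MP_0a5adf_nt.TP.Interfaces

set_option autoImplicit false

namespace Pool.Agent.Lib.MP_0a5adf_nt.H37

open Finset Pool.Agent.Lib.MP_0a5adf_nt.TP

theorem fam_sub {n c : ℕ} {S : Finset ℕ} (h : S ∈ Fam n c) : S ⊆ Icc 1 c := by
  unfold Fam at h
  exact (mem_powersetCard.1 (mem_filter.1 h).1).1

theorem fam_card {n c : ℕ} {S : Finset ℕ} (h : S ∈ Fam n c) : S.card = n := by
  unfold Fam at h
  exact (mem_powersetCard.1 (mem_filter.1 h).1).2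

theorem fam_empty {n c : ℕ} (h : c < n) : Fam n c = ∅ := by
  rw [eq_empty_iff_forall_notMem]
  intro S hS
  have h1 := card_le_card (fam_sub hS)
  rw [fam_card hS, Nat.card_Icc] at h1
  omega

open Classical in
/-- PSPLIT. -/
theorem psplit (hP : PowSplitStatement) (hC : CatStatement) : PsplitStatement := by
  intro k i s M hks
  unfold Pc
  rw [card_eq_sum_ones, sum_filter]
  push_cast
  have h1 := hP ℝ k s i (fun S => if xz (3 ^ k) S = (M : ZMod (3 ^ k)) then (1 : ℝ) else 0) hks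
  rw [h1, sum_div]
  refine sum_congr rfl fun a ha => ?_
  have ha' : a ≤ i := by
    have := mem_range.1 ha
    omega
  have h2 : ∀ A ∈ Fam k a, ∑ B ∈ powersetCard (s - k) (Icc 1 (i - a)),
      (if xz (3 ^ k) (cat a A B) = (M : ZMod (3 ^ k)) then (1 : ℝ) else 0) =
      ((i - a).choose (s - k) : ℝ) * (if xz (3 ^ k) A = (M : ZMod (3 ^ k)) then (1 : ℝ) else 0) := by
    intro A hA
    have h3 : ∀ B ∈ powersetCard (s - k) (Icc 1 (i - a)),
        (if xz (3 ^ k) (cat a A B) = (M : ZMod (3 ^ k)) then (1 : ℝ) else 0) =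
        (if xz (3 ^ k) A = (M : ZMod (3 ^ k)) then (1 : ℝ) else 0) := by
      intro B hB
      have h4 := (hC a (i - a) A B (fam_sub hA) (mem_powersetCard.1 hB).1).2.2.1 (3 ^ k)
      have h5 : (3 : ZMod (3 ^ k)) ^ A.card = 0 := by
        rw [fam_card hA]
        have := ZMod.natCast_self (3 ^ k)
        push_cast at this
        exact this
      rw [h4, h5, zero_mul, zero_mul, add_zero]
    rw [sum_congr rfl h3, sum_const, card_powersetCard, Nat.card_Icc, nsmul_eq_mul]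
    simp
  rw [sum_congr rfl h2, ← mul_sum]
  unfold f
  rw [card_eq_sum_ones, sum_filter]
  push_cast
  have h6 : (2 : ℝ) ^ i = 2 ^ a * 2 ^ (i - a) := by
    rw [← pow_add]
    congr 1
    omega
  rw [h6]
  field_simp

theorem two_mul_inv {q : ℕ} (hq : Odd q) : (2 : ZMod q) * (2 : ZMod q)⁻¹ = 1 := by
  have h := ZMod.coe_mul_inv_eq_one 2 (Nat.coprime_two_left.2 hq)
  exact_mod_cast h

theorem odd3 (k : ℕ) : Odd (3 ^ k : ℕ) := Odd.pow (by decide)

theorem cast_xz {k k' : ℕ} (h : k ≤ k') (S : Finset ℕ) :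
    ZMod.castHom (pow_dvd_pow 3 h) (ZMod (3 ^ k)) (xz (3 ^ k') S) = xz (3 ^ k) S := by
  unfold xz
  rw [map_sum]
  refine sum_congr rfl fun x _ => ?_
  rw [map_mul, map_pow, map_pow]
  have h1 : ZMod.castHom (pow_dvd_pow 3 h) (ZMod (3 ^ k)) (2 : ZMod (3 ^ k'))⁻¹ =
      (2 : ZMod (3 ^ k))⁻¹ := by
    have h2 : (2 : ZMod (3 ^ k)) * ZMod.castHom (pow_dvd_pow 3 h) (ZMod (3 ^ k))
        (2 : ZMod (3 ^ k'))⁻¹ = 1 := by
      have h3 := congrArg (ZMod.castHom (pow_dvd_pow 3 h) (ZMod (3 ^ k)))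
        (two_mul_inv (odd3 k'))
      rw [map_mul, map_one, map_ofNat] at h3
      exact h3
    have h4 := two_mul_inv (odd3 k)
    calc ZMod.castHom (pow_dvd_pow 3 h) (ZMod (3 ^ k)) (2 : ZMod (3 ^ k'))⁻¹
        = ((2 : ZMod (3 ^ k)) * (2 : ZMod (3 ^ k))⁻¹) *
          ZMod.castHom (pow_dvd_pow 3 h) (ZMod (3 ^ k)) (2 : ZMod (3 ^ k'))⁻¹ := by
            rw [h4, one_mul]
      _ = (2 : ZMod (3 ^ k))⁻¹ * ((2 : ZMod (3 ^ k)) *
          ZMod.castHom (pow_dvd_pow 3 h) (ZMod (3 ^ k)) (2 : ZMod (3 ^ k'))⁻¹) := by ring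
      _ = (2 : ZMod (3 ^ k))⁻¹ := by rw [h2, mul_one]
  rw [h1, map_ofNat]

/-- the three lifts -/
theorem lifts (k : ℕ) (x : ZMod (3 ^ (k + 1))) (M : ℤ) :
    ZMod.castHom (pow_dvd_pow 3 (Nat.le_succ k)) (ZMod (3 ^ k)) x = (M : ZMod (3 ^ k)) ↔
      x = (M : ZMod (3 ^ (k + 1))) ∨ x = ((M + 3 ^ k : ℤ) : ZMod (3 ^ (k + 1))) ∨
        x = ((M + 2 * 3 ^ k : ℤ) : ZMod (3 ^ (k + 1))) := by
  obtain ⟨z, rfl⟩ := ZMod.intCast_surjective x
  rw [map_intCast, ZMod.intCast_eq_intCast_iff_dvd_sub, ZMod.intCast_eq_intCast_iff_dvd_sub,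
    ZMod.intCast_eq_intCast_iff_dvd_sub, ZMod.intCast_eq_intCast_iff_dvd_sub]
  push_cast
  constructor
  · rintro ⟨t, ht⟩
    have h3 : (t % 3 = 0 ∨ t % 3 = 1 ∨ t % 3 = 2) := by omega
    rcases h3 with h | h | h
    · left
      obtain ⟨u, rfl⟩ : ∃ u, t = 3 * u := ⟨t / 3, by omega⟩
      exact ⟨u, by rw [ht, pow_succ]; ring⟩
    · right; right
      obtain ⟨u, rfl⟩ : ∃ u, t = 3 * u + 1 := ⟨t / 3, by omega⟩
      refine ⟨u + 1, ?_⟩
      have : M + 2 * 3 ^ k - z = (M - z) + 2 * 3 ^ k := by ring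
      rw [this, ht, pow_succ]; ring
    · right; left
      obtain ⟨u, rfl⟩ : ∃ u, t = 3 * u + 2 := ⟨t / 3, by omega⟩
      refine ⟨u + 1, ?_⟩
      have : M + 3 ^ k - z = (M - z) + 3 ^ k := by ring
      rw [this, ht, pow_succ]; ring
  · rintro (⟨t, ht⟩ | ⟨t, ht⟩ | ⟨t, ht⟩)
    · exact ⟨3 * t, by rw [ht, pow_succ]; ring⟩
    · refine ⟨3 * t - 1, ?_⟩
      have : M - z = (M + 3 ^ k - z) - 3 ^ k := by ring
      rw [this, ht, pow_succ]; ring
    · refine ⟨3 * t - 2, ?_⟩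
      have : M - z = (M + 2 * 3 ^ k - z) - 2 * 3 ^ k := by ring
      rw [this, ht, pow_succ]; ring

theorem lifts_ne1 (k : ℕ) (M : ℤ) :
    (M : ZMod (3 ^ (k + 1))) ≠ ((M + 3 ^ k : ℤ) : ZMod (3 ^ (k + 1))) := by
  rw [Ne, ZMod.intCast_eq_intCast_iff_dvd_sub]
  push_cast
  rintro ⟨t, ht⟩
  have h : (3 : ℤ) ^ k * (3 * t - 1) = 0 := by
    have : (3 : ℤ) ^ k * (3 * t) = 3 ^ k := by rw [pow_succ] at ht; linarith
    linarith
  have h0 : (3 : ℤ) ^ k ≠ 0 := by positivity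
  rcases mul_eq_zero.1 h with h | h
  · exact h0 h
  · omega

theorem lifts_ne2 (k : ℕ) (M : ℤ) :
    (M : ZMod (3 ^ (k + 1))) ≠ ((M + 2 * 3 ^ k : ℤ) : ZMod (3 ^ (k + 1))) := by
  rw [Ne, ZMod.intCast_eq_intCast_iff_dvd_sub]
  push_cast
  rintro ⟨t, ht⟩
  have h : (3 : ℤ) ^ k * (3 * t - 2) = 0 := by
    have : (3 : ℤ) ^ k * (3 * t) = 2 * 3 ^ k := by rw [pow_succ] at ht; linarith
    linarith
  have h0 : (3 : ℤ) ^ k ≠ 0 := by positivity
  rcases mul_eq_zero.1 h with h | h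
  · exact h0 h
  · omega

open Classical in
theorem pc_lift (k i s : ℕ) (M : ℤ) :
    Pc k i s M = Pc (k + 1) i s M + Pc (k + 1) i s (M + 3 ^ k) +
      Pc (k + 1) i s (M + 2 * 3 ^ k) := by
  unfold Pc
  rw [← add_div, ← add_div]
  congr 1
  rw [card_eq_sum_ones, card_eq_sum_ones, card_eq_sum_ones, card_eq_sum_ones, sum_filter,
    sum_filter, sum_filter, sum_filter]
  push_cast
  rw [← sum_add_distrib, ← sum_add_distrib]
  refine sum_congr rfl fun S _ => ?_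
  have h1 := lifts k (xz (3 ^ (k + 1)) S) M
  rw [cast_xz (Nat.le_succ k)] at h1
  have n1 := lifts_ne1 k M
  have n2 := lifts_ne2 k M
  have n3 := lifts_ne1 k (M + 3 ^ k)
  have e3 : ((M + 3 ^ k + 3 ^ k : ℤ) : ZMod (3 ^ (k + 1))) =
      ((M + 2 * 3 ^ k : ℤ) : ZMod (3 ^ (k + 1))) := by congr 1; ring
  rw [e3] at n3
  push_cast at h1 n1 n2 n3 ⊢
  by_cases a1 : xz (3 ^ (k + 1)) S = (M : ZMod (3 ^ (k + 1)))
  · rw [if_pos (h1.2 (Or.inl a1)), if_pos a1, if_neg, if_neg]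
    · norm_num
    · rw [a1]; exact n2
    · rw [a1]; exact n1
  · by_cases a2 : xz (3 ^ (k + 1)) S = (M : ZMod (3 ^ (k + 1))) + 3 ^ k
    · rw [if_pos (h1.2 (Or.inr (Or.inl a2))), if_neg a1, if_pos a2, if_neg]
      · norm_num
      · rw [a2]; exact n3
    · by_cases a3 : xz (3 ^ (k + 1)) S = (M : ZMod (3 ^ (k + 1))) + 2 * 3 ^ k
      · rw [if_pos (h1.2 (Or.inr (Or.inr a3))), if_neg a1, if_neg a2, if_pos a3]
        norm_num
      · rw [if_neg a1, if_neg a2, if_neg a3, if_neg]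
        · norm_num
        · intro h
          rcases h1.1 h with h | h | h
          · exact a1 h
          · exact a2 h
          · exact a3 h

open Classical in
/-- grouping by residues -/
theorem group_le (d : Bool) (k : ℕ) (W : Finset ℕ) (ω : ℕ → ℝ) (Ω : ℝ)
    (h : ZMod (3 ^ k) → ℝ) (hh : ∀ X, 0 ≤ h X)
    (hr : ∀ r, ∑ M ∈ W.filter (fun M => M % 3 ^ k = r), ω M ≤ Ω / 3 ^ k) :
    ∑ M ∈ W, ω M * h ((sg d * M : ℤ) : ZMod (3 ^ k)) ≤ Ω / 3 ^ k * ∑ X, h X := by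
  have h1 : ∑ M ∈ W, ω M * h ((sg d * M : ℤ) : ZMod (3 ^ k)) =
      ∑ X : ZMod (3 ^ k), ∑ M ∈ W.filter (fun M : ℕ => ((sg d * M : ℤ) : ZMod (3 ^ k)) = X),
        ω M * h ((sg d * M : ℤ) : ZMod (3 ^ k)) := by
    rw [← sum_fiberwise_of_maps_to (s := W) (t := (univ : Finset (ZMod (3 ^ k))))
      (g := fun M : ℕ => ((sg d * M : ℤ) : ZMod (3 ^ k)))]
    intro x _
    exact mem_univ _
  rw [h1, mul_sum]
  refine sum_le_sum fun X _ => ?_
  have h2 : ∑ M ∈ W.filter (fun M : ℕ => ((sg d * M : ℤ) : ZMod (3 ^ k)) = X),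
        ω M * h ((sg d * M : ℤ) : ZMod (3 ^ k)) =
      (∑ M ∈ W.filter (fun M : ℕ => ((sg d * M : ℤ) : ZMod (3 ^ k)) = X), ω M) * h X := by
    rw [sum_mul]
    refine sum_congr rfl fun M hM => ?_
    rw [(mem_filter.1 hM).2]
  rw [h2]
  refine mul_le_mul_of_nonneg_right ?_ (hh X)
  have h3 : ∃ r : ℕ, ∀ M : ℕ, ((sg d * M : ℤ) : ZMod (3 ^ k)) = X ↔ M % 3 ^ k = r := by
    have key : ∀ (Y : ZMod (3 ^ k)) (M : ℕ), (M : ZMod (3 ^ k)) = Y ↔ M % 3 ^ k = Y.val := by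
      intro Y M
      constructor
      · rintro rfl
        rw [ZMod.val_natCast]
      · intro hM
        have h5 := ZMod.natCast_zmod_val Y
        rw [← hM] at h5
        rw [← h5, ZMod.natCast_mod]
    cases d with
    | true =>
      refine ⟨X.val, fun M => ?_⟩
      rw [← key X M]
      simp [sg]
    | false =>
      refine ⟨(-X).val, fun M => ?_⟩
      rw [← key (-X) M]
      simp only [sg]
      push_cast
      constructor
      · intro h
        rw [← h]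
        simp
      · intro h
        rw [h]
        simp
  obtain ⟨r, hr'⟩ := h3
  have h4 : W.filter (fun M : ℕ => ((sg d * M : ℤ) : ZMod (3 ^ k)) = X) =
      W.filter (fun M => M % 3 ^ k = r) := by
    ext M
    simp only [mem_filter, hr']
  rw [h4]
  exact hr r

/-- STEP -/
theorem step (hP : PsplitStatement) : StepStatement := by
  intro d k i s W ω Ω hk hks hω hr
  obtain ⟨k, rfl⟩ : ∃ k', k = k' + 1 := ⟨k - 1, by omega⟩
  rw [Nat.add_sub_cancel]
  have h1 : ∀ M ∈ W, ω M * |3 ^ (k + 1) * Pc (k + 1) i s (sg d * M) -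
      3 ^ k * Pc k i s (sg d * M)| ≤
      ω M * (3 ^ (k + 1) * ∑ c ∈ range (i + 1),
        |f (k + 1) c ((sg d * M : ℤ) : ZMod (3 ^ (k + 1))) -
          (f (k + 1) c ((sg d * M : ℤ) : ZMod (3 ^ (k + 1))) +
           f (k + 1) c (((sg d * M : ℤ) : ZMod (3 ^ (k + 1))) + 3 ^ (k + 1 - 1)) +
           f (k + 1) c (((sg d * M : ℤ) : ZMod (3 ^ (k + 1))) + 2 * 3 ^ (k + 1 - 1))) / 3|) := by
    intro M hM
    refine mul_le_mul_of_nonneg_left ?_ (hω M hM)
    rw [pc_lift k i s, hP (k + 1) i s _ hks, hP (k + 1) i s _ hks, hP (k + 1) i s _ hks]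
    have h2 : (3 : ℝ) ^ (k + 1) * (∑ c ∈ range (i + 1),
          f (k + 1) c ((sg d * M : ℤ) : ZMod (3 ^ (k + 1))) *
            (((i - c).choose (s - (k + 1)) : ℝ) / 2 ^ (i - c))) -
        3 ^ k * (∑ c ∈ range (i + 1), f (k + 1) c ((sg d * M : ℤ) : ZMod (3 ^ (k + 1))) *
            (((i - c).choose (s - (k + 1)) : ℝ) / 2 ^ (i - c)) +
          ∑ c ∈ range (i + 1), f (k + 1) c ((sg d * M + 3 ^ k : ℤ) : ZMod (3 ^ (k + 1))) *
            (((i - c).choose (s - (k + 1)) : ℝ) / 2 ^ (i - c)) +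
          ∑ c ∈ range (i + 1), f (k + 1) c ((sg d * M + 2 * 3 ^ k : ℤ) : ZMod (3 ^ (k + 1))) *
            (((i - c).choose (s - (k + 1)) : ℝ) / 2 ^ (i - c))) =
        3 ^ (k + 1) * ∑ c ∈ range (i + 1), (f (k + 1) c ((sg d * M : ℤ) : ZMod (3 ^ (k + 1))) -
          (f (k + 1) c ((sg d * M : ℤ) : ZMod (3 ^ (k + 1))) +
           f (k + 1) c (((sg d * M : ℤ) : ZMod (3 ^ (k + 1))) + 3 ^ (k + 1 - 1)) +
           f (k + 1) c (((sg d * M : ℤ) : ZMod (3 ^ (k + 1))) + 2 * 3 ^ (k + 1 - 1))) / 3) *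
            (((i - c).choose (s - (k + 1)) : ℝ) / 2 ^ (i - c)) := by
      rw [← sum_add_distrib, ← sum_add_distrib, mul_sum, mul_sum, ← sum_sub_distrib, mul_sum]
      refine sum_congr rfl fun c _ => ?_
      push_cast
      rw [pow_succ]
      ring
    rw [h2, abs_mul, abs_of_pos (by positivity : (0 : ℝ) < 3 ^ (k + 1))]
    refine mul_le_mul_of_nonneg_left ?_ (by positivity)
    refine (abs_sum_le_sum_abs _ _).trans (sum_le_sum fun c _ => ?_)
    rw [abs_mul]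
    have h3 : |(((i - c).choose (s - (k + 1)) : ℝ) / 2 ^ (i - c))| ≤ 1 := by
      rw [abs_of_nonneg (by positivity), div_le_one (by positivity)]
      exact_mod_cast Nat.choose_le_two_pow (i - c) (s - (k + 1))
    calc _ ≤ |_| * (1 : ℝ) := mul_le_mul_of_nonneg_left h3 (abs_nonneg _)
      _ = _ := mul_one _
  refine (sum_le_sum h1).trans ?_
  have h5 := group_le d (k + 1) W ω Ω (fun X => 3 ^ (k + 1) * ∑ c ∈ range (i + 1),
    |f (k + 1) c X - (f (k + 1) c X + f (k + 1) c (X + 3 ^ (k + 1 - 1)) +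
      f (k + 1) c (X + 2 * 3 ^ (k + 1 - 1))) / 3|)
      (fun X => by positivity) hr
  refine h5.trans (le_of_eq ?_)
  unfold Josc oscf
  rw [← mul_sum, sum_comm, ← mul_assoc, div_mul_cancel₀ _ (by positivity)]

/-- MIX -/
theorem mix (hS : StepStatement) (hR : ResStatement) : MixStatement := by
  intro d m i s k l hms hsk
  have key : ∀ s', m ≤ s' → s' ≤ s → ∑ M ∈ blk k l, 1 / (M : ℝ) *
        |3 ^ s' * Pc s' i s (sg d * M) - 3 ^ m * Pc m i s (sg d * M)| ≤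
      ((l : ℝ) + 1) * ∑ n ∈ Ioc m s', Josc n (i + 1) := by
    intro s' hs'
    induction s', hs' using Nat.le_induction with
    | base => intro _; simp
    | succ t ht ih =>
      intro hts
      have h1 := ih (by omega)
      have h2 := hS d (t + 1) i s (blk k l) (fun M => 1 / (M : ℝ)) ((l : ℝ) + 1) (by omega) hts
        (fun M _ => by positivity) (fun r => by
          have h3 := hR (3 ^ (t + 1)) k l r (by positivity)
            (le_trans (Nat.pow_le_pow_right (by norm_num) hts) hsk)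
          push_cast at h3
          exact h3)
      rw [Nat.add_sub_cancel] at h2
      rw [Finset.sum_Ioc_succ_top ht, mul_add]
      refine le_trans ?_ (add_le_add h1 h2)
      rw [← sum_add_distrib]
      refine sum_le_sum fun M _ => ?_
      rw [← mul_add]
      refine mul_le_mul_of_nonneg_left ?_ (by positivity)
      have := abs_sub_le (3 ^ (t + 1) * Pc (t + 1) i s (sg d * M)) (3 ^ t * Pc t i s (sg d * M))
        (3 ^ m * Pc m i s (sg d * M))
      linarith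
  exact key s hms le_rfl

end Pool.Agent.Lib.MP_0a5adf_nt.H37
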