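import Pool.Agent.Lib.MP_0a5adf_nt.H37.Mix

set_option autoImplicit false

namespace Pool.Agent.Lib.MP_0a5adf_nt.H37

open Finset Pool.Agent.Lib.MP_0a5adf_nt.TP

theorem f_nonneg (n c : ℕ) (X : ZMod (3 ^ n)) : 0 ≤ f n c X := by
  unfold f
  positivity

theorem Pc_nonneg (k i s : ℕ) (M : ℤ) : 0 ≤ Pc k i s M := by
  unfold Pc
  positivity

theorem f_zero {n c : ℕ} (h : c < n) (X : ZMod (3 ^ n)) : f n c X = 0 := by
  unfold f
  rw [fam_empty h]
  simp

open Classical in
theorem sum_card_fiber {q : ℕ} [NeZero q] (F : Finset (Finset ℕ)) (x : Finset ℕ → ZMod q) :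
    ∑ X : ZMod q, ((F.filter fun S => x S = X).card : ℝ) = (F.card : ℝ) := by
  rw [← Nat.cast_sum]
  congr 1
  exact (card_eq_sum_card_fiberwise (f := x) (t := univ) (by
    intro S _
    simp)).symm

theorem sum_f (n c : ℕ) : ∑ X : ZMod (3 ^ n), f n c X = ((Fam n c).card : ℝ) / 2 ^ c := by
  unfold f
  rw [← sum_div, sum_card_fiber]

theorem Phi_nonneg (m : ℕ) (M : ℤ) : 0 ≤ Phi m M := by
  unfold Phi
  have : 0 ≤ ∑ c ∈ range (4 * m + 1), f m c (M : ZMod (3 ^ m)) :=
    sum_nonneg fun c _ => f_nonneg _ _ _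
  positivity

theorem sum_choose_shift {m i c : ℕ} (hc : m ≤ c) (hmi : m ≤ i) :
    ∑ s ∈ Icc m i, ((i - c).choose (s - m) : ℝ) = 2 ^ (i - c) := by
  have h1 : ∑ s ∈ Icc m i, ((i - c).choose (s - m) : ℝ) =
      ∑ t ∈ range (i - m + 1), ((i - c).choose t : ℝ) := by
    rw [← Finset.Ico_add_one_right_eq_Icc, sum_Ico_eq_sum_range]
    have : i + 1 - m = i - m + 1 := by omega
    rw [this]
    refine sum_congr rfl fun t _ => ?_
    congr 2
    omega
  rw [h1]
  have h2 : ∑ t ∈ range (i - m + 1), ((i - c).choose t : ℝ) =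
      ∑ t ∈ range (i - c + 1), ((i - c).choose t : ℝ) := by
    symm
    refine sum_subset (range_subset_range.2 (by omega)) ?_
    intro t _ ht
    rw [mem_range, not_lt] at ht
    rw [Nat.choose_eq_zero_of_lt (by omega)]
    simp
  rw [h2]
  exact_mod_cast Nat.sum_range_choose (i - c)

theorem blk_res (hR : ResStatement) {m k l : ℕ} (h : 3 ^ m ≤ 2 ^ k) (r : ℕ) :
    ∑ M ∈ (blk k l).filter (fun M => M % 3 ^ m = r), 1 / (M : ℝ) ≤ ((l : ℝ) + 1) / 3 ^ m := by
  have h3 := hR (3 ^ m) k l r (by positivity) h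
  push_cast at h3
  exact h3

open Classical in
/-- PHI -/
theorem phi (hP : PsplitStatement) (hR : ResStatement) (hM : MassStatement) : PhiStatement := by
  have p2 : ∀ (d : Bool) (m c k l : ℕ), 3 ^ m ≤ 2 ^ k →
      ∑ M ∈ blk k l, 1 / (M : ℝ) * (3 ^ m * f m c ((sg d * M : ℤ) : ZMod (3 ^ m))) ≤
      ((l : ℝ) + 1) * (((Fam m c).card : ℝ) / 2 ^ c) := by
    intro d m c k l h
    have h1 := group_le d m (blk k l) (fun M => 1 / (M : ℝ)) ((l : ℝ) + 1)
      (fun X => 3 ^ m * f m c X) (fun X => mul_nonneg (by positivity) (f_nonneg _ _ _))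
      (blk_res hR h)
    refine h1.trans (le_of_eq ?_)
    rw [← mul_sum, sum_f, ← mul_assoc, div_mul_cancel₀ _ (by positivity)]
  refine ⟨?_, p2, ?_, ?_, Phi_nonneg⟩
  · intro m i M
    rcases lt_or_ge i m with him | him
    · rw [Icc_eq_empty (by omega), sum_empty]
      symm
      refine sum_eq_zero fun c hc => f_zero ?_ _
      have := mem_range.1 hc
      omega
    · have h1 : ∑ s ∈ Icc m i, Pc m i s M = ∑ s ∈ Icc m i, ∑ c ∈ range (i + 1),
          f m c (M : ZMod (3 ^ m)) * (((i - c).choose (s - m) : ℝ) / 2 ^ (i - c)) :=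
        sum_congr rfl fun s hs => hP m i s M (mem_Icc.1 hs).1
      rw [h1, sum_comm]
      refine sum_congr rfl fun c hc => ?_
      rcases lt_or_ge c m with hcm | hcm
      · rw [f_zero hcm]
        simp
      · rw [← mul_sum, ← sum_div, sum_choose_shift hcm him, div_self (by positivity), mul_one]
  · intro d m i s k l h
    have h1 := group_le d m (blk k l) (fun M => 1 / (M : ℝ)) ((l : ℝ) + 1)
      (fun X => 3 ^ m * ((((powersetCard s (Icc 1 i)).filter fun S => xz (3 ^ m) S = X).card : ℝ)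
        / 2 ^ i)) (fun X => by positivity) (blk_res hR h)
    refine h1.trans (le_of_eq ?_)
    rw [← mul_sum, ← mul_assoc, div_mul_cancel₀ _ (by positivity), ← sum_div, sum_card_fiber,
      card_powersetCard, Nat.card_Icc, Nat.add_sub_cancel]
  · intro d m k l h
    have h1 : ∀ M ∈ blk k l, 1 / (M : ℝ) * Phi m (sg d * M) = ∑ c ∈ range (4 * m + 1),
        1 / (M : ℝ) * (3 ^ m * f m c ((sg d * M : ℤ) : ZMod (3 ^ m))) := by
      intro M _
      unfold Phi
      rw [mul_sum, mul_sum]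
    rw [sum_congr rfl h1, sum_comm]
    refine (sum_le_sum fun c _ => p2 d m c k l h).trans ?_
    rw [← mul_sum]
    have h2 := hM.2.2 (1 / 2) m (4 * m + 1) (by norm_num) (by norm_num)
    have h3 : ∑ c ∈ range (4 * m + 1), ((Fam m c).card : ℝ) / 2 ^ c ≤ 1 := by
      have h4 : ((1 / 2 : ℝ) / (1 - 1 / 2)) ^ m = 1 := by norm_num
      rw [h4] at h2
      refine le_trans (le_of_eq ?_) h2
      refine sum_congr rfl fun c _ => ?_
      rw [one_div, inv_pow, div_eq_mul_inv]
    have h5 : (0 : ℝ) ≤ (l : ℝ) + 1 := by positivity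
    nlinarith

end Pool.Agent.Lib.MP_0a5adf_nt.H37
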